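import Pool.Agent.R976.ConeLimit

set_option autoImplicit false

open MeasureTheory ProbabilityTheory Filter Topology
open scoped BoundedContinuousFunction

namespace Pool.Agent.Results.MP_9a1bf0_pr.LimitMeanLess

open Pool.Agent.R976.Cone

/-- Every subsequential limit in distribution of `2^d α_d` has mean at most `2/3`; in particular
`2^d α_d` does not converge in distribution to a random variable with mean `1`. -/
theorem result :
    (∀ d : ℕ, 0 < d → ∃ σ : Measure (E d), IsSph σ) ∧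
    ∀ σ : (d : ℕ) → Measure (E d), (∀ d, 0 < d → IsSph (σ d)) →
      (∀ (k : ℕ → ℕ) (μ : Measure ℝ), Tendsto k atTop atTop → IsProbabilityMeasure μ →
        (∀ f : ℝ →ᵇ ℝ, Tendsto (fun n => ∫ x, f (2 ^ (k n) * angle (σ (k n)) (posHull x))
          ∂(Measure.pi fun _ : Fin (k n) => σ (k n))) atTop (𝓝 (∫ y, f y ∂μ))) →
        (∀ᵐ y ∂μ, 0 ≤ y) ∧ Integrable (fun y => y) μ ∧ ∫ y, y ∂μ ≤ 2 / 3) ∧
      ¬ ∃ μ : Measure ℝ, IsProbabilityMeasure μ ∧
        (∀ f : ℝ →ᵇ ℝ, Tendsto (fun d : ℕ => ∫ x, f (2 ^ d * angle (σ d) (posHull x))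
          ∂(Measure.pi fun _ : Fin d => σ d)) atTop (𝓝 (∫ y, f y ∂μ))) ∧
        ∫ y, y ∂μ = 1 := by
  refine ⟨fun d hd => exists_sph hd, fun σ hσ => ?_⟩
  have main : ∀ (k : ℕ → ℕ) (μ : Measure ℝ), Tendsto k atTop atTop → IsProbabilityMeasure μ →
        (∀ f : ℝ →ᵇ ℝ, Tendsto (fun n => ∫ x, f (2 ^ (k n) * angle (σ (k n)) (posHull x))
          ∂(Measure.pi fun _ : Fin (k n) => σ (k n))) atTop (𝓝 (∫ y, f y ∂μ))) →
        (∀ᵐ y ∂μ, 0 ≤ y) ∧ Integrable (fun y => y) μ ∧ ∫ y, y ∂μ ≤ 2 / 3 :=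
    fun k μ hk hμ h => limit_mean σ hσ k hk μ h
  refine ⟨main, ?_⟩
  rintro ⟨μ, hμ, h, h1⟩
  have h2 := (main (fun d => d) μ tendsto_id hμ h).2.2
  rw [h1] at h2
  norm_num at h2

end Pool.Agent.Results.MP_9a1bf0_pr.LimitMeanLess
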